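import Pool.Agent.K1H5.PP.Stm

/-! Project PP, piece GV: `Gen` in coordinates. -/

set_option autoImplicit false

namespace Pool.Agent.K1H64.PP

open MonoidAlgebra Pool.Agent.K1H5.PP

universe u v

theorem t_GV (h : S_VK.{u}) : S_GV.{u, v} := by
  intro G _ P _ _ s hs K
  have hVan : ∀ a : MonoidAlgebra ℤ G, Van K a ↔ a ∈ AddSubgroup.closure
      {y : MonoidAlgebra ℤ G | ∃ k ∈ K, ∃ z : MonoidAlgebra ℤ G,
        y = (single k (1 : ℤ) : MonoidAlgebra ℤ G) * z - z} := fun a => h G K a
  constructor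
  · intro hG x b
    rw [hVan]
    let φ : P →+ MonoidAlgebra ℤ G :=
      { toFun := fun y => s y b
        map_zero' := by rw [map_zero, Finsupp.zero_apply]
        map_add' := fun y z => by rw [map_add, Finsupp.add_apply] }
    have key : AddSubgroup.closure
        {y : P | ∃ k ∈ K, ∃ z : P, y = (single k (1 : ℤ) : MonoidAlgebra ℤ G) • z - z} ≤
        (AddSubgroup.closure {y : MonoidAlgebra ℤ G | ∃ k ∈ K, ∃ z : MonoidAlgebra ℤ G,
          y = (single k (1 : ℤ) : MonoidAlgebra ℤ G) * z - z}).comap φ := by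
      rw [AddSubgroup.closure_le]
      rintro y ⟨k, hk, z, rfl⟩
      refine AddSubgroup.subset_closure ⟨k, hk, s z b, ?_⟩
      show s ((single k (1 : ℤ) : MonoidAlgebra ℤ G) • z - z) b = _
      rw [map_sub, map_smul, Finsupp.sub_apply, Finsupp.smul_apply, smul_eq_mul]
    exact key (hG x)
  · intro hV x
    have key : ∀ (b : P) (a : MonoidAlgebra ℤ G), Van K a → a • b ∈ AddSubgroup.closure
        {y : P | ∃ k ∈ K, ∃ z : P, y = (single k (1 : ℤ) : MonoidAlgebra ℤ G) • z - z} := by
      intro b a ha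
      rw [hVan] at ha
      let ψ : MonoidAlgebra ℤ G →+ P :=
        { toFun := fun y => y • b
          map_zero' := zero_smul _ _
          map_add' := fun y z => add_smul _ _ _ }
      have h1 : AddSubgroup.closure {y : MonoidAlgebra ℤ G | ∃ k ∈ K, ∃ z : MonoidAlgebra ℤ G,
          y = (single k (1 : ℤ) : MonoidAlgebra ℤ G) * z - z} ≤
          (AddSubgroup.closure {y : P | ∃ k ∈ K, ∃ z : P,
            y = (single k (1 : ℤ) : MonoidAlgebra ℤ G) • z - z}).comap ψ := by
        rw [AddSubgroup.closure_le]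
        rintro y ⟨k, hk, z, rfl⟩
        refine AddSubgroup.subset_closure ⟨k, hk, z • b, ?_⟩
        show ((single k (1 : ℤ) : MonoidAlgebra ℤ G) * z - z) • b = _
        rw [sub_smul, mul_smul]
      exact h1 ha
    rw [← hs x, Finsupp.linearCombination_apply, Finsupp.sum]
    exact AddSubgroup.sum_mem _ fun b _ => key b _ (hV x b)

end Pool.Agent.K1H64.PP
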